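import Pool.Agent.MPab1e31.Final

open scoped TensorProduct

namespace Pool.Agent.Results.MP_ab1e31_nt.EllipticRank

/-- Let `K` be an algebraic extension of `ℚ` whose absolute Galois group `Gal(AlgebraicClosure K/K)`
(with the Krull topology) is topologically finitely generated: some finite subset `S` generates a
dense subgroup. Then every elliptic curve `E` over `K` has infinite rank: the rational vector space
`ℚ ⊗ E(K)` is not finite dimensional. -/
theorem result (K : Type*) [Field K] [CharZero K] [Algebra.IsAlgebraic ℚ K]
    (hK : ∃ S : Finset (AlgebraicClosure K ≃ₐ[K] AlgebraicClosure K),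
      Dense ((Subgroup.closure (S : Set (AlgebraicClosure K ≃ₐ[K] AlgebraicClosure K)) :
        Subgroup (AlgebraicClosure K ≃ₐ[K] AlgebraicClosure K)) :
        Set (AlgebraicClosure K ≃ₐ[K] AlgebraicClosure K)))
    [DecidableEq K] (E : WeierstrassCurve K) [E.IsElliptic] :
    ¬ FiniteDimensional ℚ (ℚ ⊗[ℤ] E.toAffine.Point) :=
  Pool.Agent.MPab1e31.infinite_rank K hK E

end Pool.Agent.Results.MP_ab1e31_nt.EllipticRank
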