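import Pool.Agent.MPab1e31Ev.Fin

open scoped TensorProduct

open Polynomial

namespace Pool.Agent.Results.MP_ab1e31_nt.HyperellipticEven

/-- Let `K` be an algebraic extension of `ℚ` whose absolute Galois group `Gal(AlgebraicClosure K/K)`
(with the Krull topology) is topologically finitely generated: some finite subset `S` generates a
dense subgroup. Let `f ∈ K[X]` be squarefree of even degree at least `4`, and let
`R = K[X][y]/(y² - f)` be the coordinate ring of the affine curve `y² = f(x)` (it is a domain
because `f` is not a square). Then the class group of `R` has infinite rank: the rational vector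
space `ℚ ⊗ Cl(R)` is not finite dimensional. The smooth projective model of `y² = f(x)` has one
or two closed points at infinity, so that the rank of `Cl(R)` differs from the rank of the group
`J(K)` of rational points of its Jacobian `J` by at most one. -/
theorem result (K : Type*) [Field K] [CharZero K] [Algebra.IsAlgebraic ℚ K]
    (hK : ∃ S : Finset (AlgebraicClosure K ≃ₐ[K] AlgebraicClosure K),
      Dense ((Subgroup.closure (S : Set (AlgebraicClosure K ≃ₐ[K] AlgebraicClosure K)) :
        Subgroup (AlgebraicClosure K ≃ₐ[K] AlgebraicClosure K)) :
        Set (AlgebraicClosure K ≃ₐ[K] AlgebraicClosure K)))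
    (f : K[X]) (heven : Even f.natDegree) (h4 : 4 ≤ f.natDegree) (hsq : Squarefree f)
    [IsDomain (AdjoinRoot (X ^ 2 - C f : K[X][X]))] :
    ¬ FiniteDimensional ℚ
      (ℚ ⊗[ℤ] Additive (ClassGroup (AdjoinRoot (X ^ 2 - C f : K[X][X])))) :=
  Pool.Agent.MPab1e31.Ev.even_infinite_rank K hK f heven h4 hsq

end Pool.Agent.Results.MP_ab1e31_nt.HyperellipticEven
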