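import Pool.Agent.MPab1e31Se.Fin3

open scoped TensorProduct

open Polynomial

namespace Pool.Agent.Results.MP_ab1e31_nt.Superelliptic

/-- Let `K` be an algebraic extension of `ℚ` whose absolute Galois group `Gal(AlgebraicClosure K/K)`
(with the Krull topology) is topologically finitely generated: some finite subset `S` generates a
dense subgroup. Let `n ≥ 3`, let `f ∈ K[X]` be squarefree of degree at least `2`, and let
`R = K[X][y]/(yⁿ - f)` be the coordinate ring of the affine curve `yⁿ = f(x)`. Then `R` is a domain
and the class group of `R` has infinite rank: the rational vector space `ℚ ⊗ Cl(R)` is not finite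
dimensional. The smooth projective model `C` of `yⁿ = f(x)` is geometrically irreducible, has
positive genus and finitely many closed points at infinity, and `Cl(R)` is the quotient of
`Pic(C)` by their classes, so that the group `J(K)` of rational points of the Jacobian `J` of `C`
has infinite rank. -/
theorem result (K : Type*) [Field K] [CharZero K] [Algebra.IsAlgebraic ℚ K]
    (hK : ∃ S : Finset (AlgebraicClosure K ≃ₐ[K] AlgebraicClosure K),
      Dense ((Subgroup.closure (S : Set (AlgebraicClosure K ≃ₐ[K] AlgebraicClosure K)) :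
        Subgroup (AlgebraicClosure K ≃ₐ[K] AlgebraicClosure K)) :
        Set (AlgebraicClosure K ≃ₐ[K] AlgebraicClosure K)))
    (n : ℕ) (hn : 3 ≤ n) (f : K[X]) (hd : 2 ≤ f.natDegree) (hsq : Squarefree f) :
    ∃ _ : IsDomain (AdjoinRoot (X ^ n - C f : K[X][X])), ¬ FiniteDimensional ℚ
      (ℚ ⊗[ℤ] Additive (ClassGroup (AdjoinRoot (X ^ n - C f : K[X][X])))) := by
  have hdom : IsDomain (AdjoinRoot (Pool.Agent.MPab1e31.Se.SF n f)) :=
    Pool.Agent.MPab1e31.Se.isDomain_SF (by omega) f hsq (by omega)
  exact ⟨hdom, Pool.Agent.MPab1e31.Se.infinite_rank_of_classes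
    (AdjoinRoot (Pool.Agent.MPab1e31.Se.SF n f)) fun m =>
    Pool.Agent.MPab1e31.Se.superelliptic_classes K hK hn f hd hsq m⟩

end Pool.Agent.Results.MP_ab1e31_nt.Superelliptic
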